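import Mathlib
import Pool.Agent.Lib_helper11.CUB.Base
import Pool.Agent.Lib_helper3.CYC.Unit

/-!
The identities behind the theorem on pairs `g`, `F` where `g` is an arbitrary monic cubic without
integer root and `F` is the polynomial whose roots are `v` times the squares of the roots of `g`.
-/

namespace Pool.Agent.Lib_helper74.CUS

open Pool.Agent.Lib_helper11.CUB (CM)

/-- The monic cubic with coefficients `-e₁, e₂, -e₃`. -/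
def g (e1 e2 e3 n : ℤ) : ℤ := n ^ 3 - e1 * n ^ 2 + e2 * n - e3

/-- The monic cubic whose roots are `v` times the squares of the roots of `g`. -/
def F (e1 e2 e3 v n : ℤ) : ℤ :=
  n ^ 3 - v * (e1 ^ 2 - 2 * e2) * n ^ 2 + v ^ 2 * (e2 ^ 2 - 2 * e1 * e3) * n - v ^ 3 * e3 ^ 2

theorem id_a (e1 e2 e3 v s : ℤ) :
    F e1 e2 e3 v (v * s ^ 2) = -(v ^ 3 * (g e1 e2 e3 s * g e1 e2 e3 (-s))) := by
  unfold F g; ring

theorem prod_F (e1 e2 e3 v a b σ π : ℚ) (h1 : a + b = σ) (h2 : a * b = π) :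
    (a ^ 3 - v * (e1 ^ 2 - 2 * e2) * a ^ 2 + v ^ 2 * (e2 ^ 2 - 2 * e1 * e3) * a - v ^ 3 * e3 ^ 2) *
      (b ^ 3 - v * (e1 ^ 2 - 2 * e2) * b ^ 2 + v ^ 2 * (e2 ^ 2 - 2 * e1 * e3) * b -
        v ^ 3 * e3 ^ 2) =
      π ^ 3 + (-(v * (e1 ^ 2 - 2 * e2))) * π ^ 2 * σ +
        (v ^ 2 * (e2 ^ 2 - 2 * e1 * e3)) * π * (σ ^ 2 - 2 * π) +
        (-(v ^ 3 * e3 ^ 2)) * (σ ^ 3 - 3 * π * σ) + (-(v * (e1 ^ 2 - 2 * e2))) ^ 2 * π ^ 2 +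
        (-(v * (e1 ^ 2 - 2 * e2))) * (v ^ 2 * (e2 ^ 2 - 2 * e1 * e3)) * π * σ +
        (-(v * (e1 ^ 2 - 2 * e2))) * (-(v ^ 3 * e3 ^ 2)) * (σ ^ 2 - 2 * π) +
        (v ^ 2 * (e2 ^ 2 - 2 * e1 * e3)) ^ 2 * π +
        (v ^ 2 * (e2 ^ 2 - 2 * e1 * e3)) * (-(v ^ 3 * e3 ^ 2)) * σ + (-(v ^ 3 * e3 ^ 2)) ^ 2 := by
  subst h1; subst h2; ring

theorem prod_g (e1 e2 e3 a b σ π : ℚ) (h1 : a + b = σ) (h2 : a * b = π) :
    (a ^ 3 - e1 * a ^ 2 + e2 * a - e3) * (b ^ 3 - e1 * b ^ 2 + e2 * b - e3) =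
      π ^ 3 + (-e1) * π ^ 2 * σ + e2 * π * (σ ^ 2 - 2 * π) + (-e3) * (σ ^ 3 - 3 * π * σ) +
        (-e1) ^ 2 * π ^ 2 + (-e1) * e2 * π * σ + (-e1) * (-e3) * (σ ^ 2 - 2 * π) + e2 ^ 2 * π +
        e2 * (-e3) * σ + (-e3) ^ 2 := by
  subst h1; subst h2; ring

/-- The relation with one value of `g` and two of `F`. -/
theorem id_b (e1 e2 e3 v k : ℤ) :
    F e1 e2 e3 v (v * e1 ^ 2 + v ^ 2 * (e1 * e2 - e3) * k) *
        F e1 e2 e3 v (-(v * e2) - v ^ 2 * (e1 * e2 - e3) * k) =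
      (v ^ 2 * (e1 * e2 - e3)) ^ 3 *
        g e1 e2 e3 (-e1 - v * k * (e1 ^ 2 + e2) - v ^ 2 * (e1 * e2 - e3) * k ^ 2) := by
  have key := prod_F e1 e2 e3 v (v * e1 ^ 2 + v ^ 2 * (e1 * e2 - e3) * k)
    (-(v * e2) - v ^ 2 * (e1 * e2 - e3) * k) (v * (e1 ^ 2 - e2))
    (v ^ 2 * (e1 * e2 - e3) * (-e1 - v * k * (e1 ^ 2 + e2) - v ^ 2 * (e1 * e2 - e3) * k ^ 2) -
      v ^ 2 * e1 * e3) (by ring) (by ring)
  have : ((F e1 e2 e3 v (v * e1 ^ 2 + v ^ 2 * (e1 * e2 - e3) * k) *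
        F e1 e2 e3 v (-(v * e2) - v ^ 2 * (e1 * e2 - e3) * k) : ℤ) : ℚ) =
      (((v ^ 2 * (e1 * e2 - e3)) ^ 3 *
        g e1 e2 e3 (-e1 - v * k * (e1 ^ 2 + e2) - v ^ 2 * (e1 * e2 - e3) * k ^ 2) : ℤ) : ℚ) := by
    unfold F g
    push_cast
    rw [key]
    generalize ((-e1 - v * k * (e1 ^ 2 + e2) - v ^ 2 * (e1 * e2 - e3) * k ^ 2 : ℚ)) = n
    ring
  exact_mod_cast this

/-- The relation with two values of `g` and two of `F`. -/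
theorem id_c {e1 e2 e3 v ν m s1 s2 s3 s4 : ℤ} (hv : v ≠ 0)
    (h1 : s1 + s2 = v * (e1 ^ 2 - e2) - ν) (h2 : s3 + s4 = m) (h3 : ν * m = v * (e1 * e2 - e3))
    (h4 : v * ν * (s3 * s4) = s1 * s2 + v ^ 2 * e1 * e3) :
    F e1 e2 e3 v s1 * F e1 e2 e3 v s2 = (v * ν) ^ 3 * (g e1 e2 e3 s3 * g e1 e2 e3 s4) := by
  have hv' : (v : ℚ) ≠ 0 := by exact_mod_cast hv
  have h1' : (s1 : ℚ) + s2 = v * (e1 ^ 2 - e2) - ν := by exact_mod_cast h1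
  have h2' : (s3 : ℚ) + s4 = m := by exact_mod_cast h2
  have h3' : (e3 : ℚ) = e1 * e2 - ν * m / v := by
    have : (ν : ℚ) * m = v * (e1 * e2 - e3) := by exact_mod_cast h3
    field_simp; linear_combination this
  have h4' : (s1 : ℚ) * s2 = v * ν * (s3 * s4) - v ^ 2 * e1 * e3 := by
    have : (v : ℚ) * ν * (s3 * s4) = s1 * s2 + v ^ 2 * e1 * e3 := by exact_mod_cast h4
    linear_combination -this
  have k1 := prod_F e1 e2 e3 v s1 s2 _ _ h1' h4'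
  have k2 := prod_g e1 e2 e3 s3 s4 _ _ h2' rfl
  have : ((F e1 e2 e3 v s1 * F e1 e2 e3 v s2 : ℤ) : ℚ) =
      (((v * ν) ^ 3 * (g e1 e2 e3 s3 * g e1 e2 e3 s4) : ℤ) : ℚ) := by
    unfold F g
    push_cast
    rw [k1, k2, h3']
    generalize ((s3 : ℚ) * s4) = π
    field_simp
    ring
  exact_mod_cast this

end Pool.Agent.Lib_helper74.CUS
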