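import Mathlib
import Pool.Agent.Lib_helper74.CUS.Ids

/-!
Solutions of `t² - Q V² = U₀² - Q V₀²` with `t > 0` in a residue class, at every scale.
-/

namespace Pool.Agent.Lib_helper74.CUS

theorem omul {a b : ℤ} (ha : 1 ≤ a) (hb : 1 ≤ b) : 1 ≤ a * b := by
  have : 0 < a * b := mul_pos (by linarith) (by linarith)
  omega

theorem size_low {Q a b X Y U0 : ℤ} (hQ : 1 ≤ Q) (hb : 1 ≤ b) (ha : 0 ≤ a) (hU : U0 ≤ a)
    (hκ : a ^ 2 + 1 ≤ Q * b ^ 2) (hXY : X ^ 2 - Q * Y ^ 2 = 1) (hX : 1 ≤ X) (hY : 1 ≤ Y)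
    (hbig : 2 * (Q * b + a) ≤ X) :
    X ≤ 2 * (Q * b + a) * (Q * b * Y - U0 * X) ∧ Y ≤ X := by
  have hYX : Y ≤ X := by
    have : Y ^ 2 ≤ X ^ 2 := by nlinarith [sq_nonneg Y]
    exact abs_le_of_sq_le_sq' this (by linarith) |>.2
  refine ⟨?_, hYX⟩
  obtain ⟨D1, hD1⟩ : ∃ D : ℤ, D = Q * b * Y - a * X := ⟨_, rfl⟩
  obtain ⟨D2, hD2⟩ : ∃ D : ℤ, D = Q * b * Y + a * X := ⟨_, rfl⟩
  have hQb : 1 ≤ Q * b := omul hQ hb
  have hQbY : 1 ≤ Q * b * Y := omul hQb hY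
  have haX : 0 ≤ a * X := by positivity
  have hD2p : 1 ≤ D2 := by rw [hD2]; linarith
  have hD2u : D2 ≤ (Q * b + a) * X := by
    rw [hD2]
    have : Q * b * Y ≤ Q * b * X := mul_le_mul_of_nonneg_left hYX (by linarith)
    linarith
  have hXb : b ≤ X := by nlinarith
  have hX2 : 2 * (Q * b) ≤ X := by linarith
  have hX3 : 2 * (Q * b ^ 2) ≤ X ^ 2 := by
    calc 2 * (Q * b ^ 2) = (2 * (Q * b)) * b := by ring
      _ ≤ X * X := mul_le_mul hX2 hXb (by linarith) (by linarith)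
      _ = X ^ 2 := by ring
  have key : X ^ 2 ≤ 2 * (D1 * D2) := by
    have e : D1 * D2 = (Q * b ^ 2 - a ^ 2) * X ^ 2 - Q * b ^ 2 := by
      rw [hD1, hD2]; linear_combination (-Q * b ^ 2) * hXY
    have h1 : 1 * X ^ 2 ≤ (Q * b ^ 2 - a ^ 2) * X ^ 2 :=
      mul_le_mul_of_nonneg_right (by linarith) (sq_nonneg X)
    rw [e]; linarith
  have hD1p : 0 < D1 := by
    by_contra hneg
    have h1 : D1 * D2 ≤ 0 := mul_nonpos_of_nonpos_of_nonneg (not_lt.1 hneg) (by linarith)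
    have h2 : 0 < X ^ 2 := by positivity
    linarith
  have h2 : X ≤ 2 * (Q * b + a) * D1 := by
    have h3 : D1 * D2 ≤ D1 * ((Q * b + a) * X) := mul_le_mul_of_nonneg_left hD2u hD1p.le
    have h4 : X * X ≤ (2 * (Q * b + a) * D1) * X := by nlinarith
    exact le_of_mul_le_mul_right h4 (by linarith)
  refine h2.trans ?_
  apply mul_le_mul_of_nonneg_left _ (by linarith)
  rw [hD1]
  have : U0 * X ≤ a * X := mul_le_mul_of_nonneg_right hU (by linarith)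
  linarith

theorem pts {Q U0 V0 W N : ℤ} (hQ1 : 1 ≤ Q) (hκ1 : U0 ^ 2 + 1 ≤ Q * V0 ^ 2)
    (hns : ¬ IsSquare Q) (hW1 : 0 < W) (hN : 1 ≤ N) :
    ∃ P : ℤ, 1 ≤ P ∧ ∀ x : ℤ, 1 ≤ x → ∃ t V c e : ℤ,
      t ^ 2 - Q * V ^ 2 = U0 ^ 2 - Q * V0 ^ 2 ∧ -t = U0 + 2 * W * c ∧ V = V0 + 2 * W * e ∧
      N * x ≤ t ∧ t ≤ P * x ∧ N * x ≤ |V| ∧ |V| ≤ P * x := by
  obtain ⟨a, ha⟩ : ∃ a : ℤ, a = |U0| := ⟨_, rfl⟩
  obtain ⟨b, hb⟩ : ∃ b : ℤ, b = |V0| := ⟨_, rfl⟩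
  have ha0 : 0 ≤ a := by rw [ha]; exact abs_nonneg _
  have hV00 : V0 ≠ 0 := by
    rintro h0
    rw [h0] at hκ1
    nlinarith [sq_nonneg U0]
  have hb1 : 1 ≤ b := by rw [hb]; exact Int.one_le_abs hV00
  have hκ2 : a ^ 2 + 1 ≤ Q * b ^ 2 := by rw [ha, hb, sq_abs, sq_abs]; exact hκ1
  have hUa : U0 ≤ a := by rw [ha]; exact le_abs_self _
  have hUa' : -a ≤ U0 := by rw [ha]; exact neg_abs_le _
  obtain ⟨σ, hσ1, hσ2, hσa⟩ : ∃ σ : ℤ, σ ^ 2 = 1 ∧ σ * V0 = -b ∧ |σ| = 1 := by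
    rcases le_total 0 V0 with h0 | h0
    · exact ⟨-1, by norm_num, by rw [hb, abs_of_nonneg h0]; ring, by norm_num⟩
    · exact ⟨1, by norm_num, by rw [hb, abs_of_nonpos h0]; ring, by norm_num⟩
  obtain ⟨Uc, hUc, hunits⟩ := Pool.Agent.Lib_helper3.CYC.units (d := Q) (W := W) (by linarith) hns hW1
  obtain ⟨G, hG⟩ : ∃ G : ℤ, G = 2 * (Q * b + a) := ⟨_, rfl⟩
  have hQb : 1 ≤ Q * b := omul hQ1 hb1
  have hG1 : 1 ≤ G := by rw [hG]; linarith
  have hQN : 1 ≤ Q * N := omul hQ1 hN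
  have hGQN : 1 ≤ G * (Q * N) := omul hG1 hQN
  refine ⟨G * (Uc * (G * (Q * N))), omul hG1 (omul hUc hGQN), ?_⟩
  intro x hx
  obtain ⟨X, Y, ⟨u1, u2, u3, u4, u5⟩, u6, u7⟩ := hunits (G * (Q * N) * x) (omul hGQN hx)
  have hQNx : 1 ≤ Q * N * x := omul hQN hx
  have hGX : G ≤ X := by
    have h3 : G * 1 ≤ G * (Q * N * x) := mul_le_mul_of_nonneg_left hQNx (by linarith)
    calc G = G * 1 := by ring
      _ ≤ G * (Q * N * x) := h3
      _ = G * (Q * N) * x := by ring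
      _ ≤ X := u6
  obtain ⟨t, ht⟩ : ∃ t : ℤ, t = Q * b * Y - U0 * X := ⟨_, rfl⟩
  obtain ⟨V, hV⟩ : ∃ V : ℤ, V = V0 * X + U0 * σ * Y := ⟨_, rfl⟩
  obtain ⟨l1, hYX⟩ := size_low hQ1 hb1 ha0 hUa hκ2 u1 u2 u3 (by rw [← hG]; exact hGX)
  rw [← hG, ← ht] at l1
  have tl : Q * N * x ≤ t := by
    have : G * (Q * N * x) ≤ G * t := by
      calc G * (Q * N * x) = G * (Q * N) * x := by ring
        _ ≤ X := u6
        _ ≤ G * t := l1
    exact le_of_mul_le_mul_left this (by linarith)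
  have hX0 : 0 ≤ X := by linarith
  have hQbX : Q * b * Y ≤ Q * b * X := mul_le_mul_of_nonneg_left hYX (by linarith)
  have haX : -(a * X) ≤ U0 * X := by
    have := mul_le_mul_of_nonneg_right hUa' hX0
    linarith
  have GXP : G * X ≤ G * (Uc * (G * (Q * N))) * x := by
    calc G * X ≤ G * (Uc * (G * (Q * N) * x)) := mul_le_mul_of_nonneg_left u7 (by linarith)
      _ = _ := by ring
  have tu : t ≤ G * (Uc * (G * (Q * N))) * x := by
    have h3 : t ≤ (Q * b + a) * X := by rw [ht]; linarith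
    have h4 : (Q * b + a) * X ≤ G * X := by
      apply mul_le_mul_of_nonneg_right _ hX0
      rw [hG]; linarith
    linarith
  have Vu : |V| ≤ G * (Uc * (G * (Q * N))) * x := by
    have h3 : |V| ≤ |V0 * X| + |U0 * σ * Y| := by rw [hV]; exact abs_add_le _ _
    rw [abs_mul, abs_mul, abs_mul, ← hb, ← ha, hσa, abs_of_nonneg hX0,
      abs_of_nonneg (show 0 ≤ Y by linarith)] at h3
    have h4 : a * 1 * Y ≤ a * X := by
      rw [mul_one]; exact mul_le_mul_of_nonneg_left hYX ha0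
    have h5 : (b + a) * X ≤ G * X := by
      apply mul_le_mul_of_nonneg_right _ hX0
      rw [hG]
      have : 1 * b ≤ Q * b := mul_le_mul_of_nonneg_right hQ1 (by linarith)
      linarith
    linarith
  have hUV : t ^ 2 - Q * V ^ 2 = U0 ^ 2 - Q * V0 ^ 2 := by
    rw [ht, hV]
    have e1 : (Q * b * Y - U0 * X) = -(U0 * X + Q * (σ * V0) * Y) := by rw [hσ2]; ring
    rw [e1]
    linear_combination (U0 ^ 2 - Q * V0 ^ 2) * u1 +
      (Q ^ 2 * V0 ^ 2 * Y ^ 2 - Q * U0 ^ 2 * Y ^ 2) * hσ1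
  have Vl : N * x ≤ |V| := by
    have h3 : t ^ 2 ≤ (Q * |V|) ^ 2 := by
      rw [mul_pow, sq_abs]
      have h4 : Q * V ^ 2 ≤ Q ^ 2 * V ^ 2 := by
        apply mul_le_mul_of_nonneg_right _ (sq_nonneg V)
        nlinarith
      linarith
    have h5 : t ≤ Q * |V| := by
      have h6 : 0 ≤ Q * |V| := by positivity
      exact (abs_le_of_sq_le_sq' h3 h6).2
    have h7 : Q * (N * x) ≤ Q * |V| := by
      calc Q * (N * x) = Q * N * x := by ring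
        _ ≤ t := tl
        _ ≤ _ := h5
    exact le_of_mul_le_mul_left h7 (by linarith)
  have tl' : N * x ≤ t := by
    have hNx : 0 ≤ N * x := mul_nonneg (by linarith) (by linarith)
    have : 1 * (N * x) ≤ Q * (N * x) := mul_le_mul_of_nonneg_right hQ1 hNx
    calc N * x ≤ Q * (N * x) := by linarith
      _ = Q * N * x := by ring
      _ ≤ t := tl
  obtain ⟨α, hα⟩ := u4
  obtain ⟨β, hβ⟩ := u5
  refine ⟨t, V, U0 * Q * α + Q * V0 * σ * β, V0 * Q * α + U0 * σ * β, hUV, ?_, ?_, tl', tu, Vl, Vu⟩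
  · rw [ht]
    have e : Q * b * Y = -(Q * (σ * V0) * Y) := by rw [hσ2]; ring
    rw [e]
    linear_combination U0 * hα + (Q * σ * V0) * hβ
  · rw [hV]
    linear_combination V0 * hα + U0 * σ * hβ

end Pool.Agent.Lib_helper74.CUS
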