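import Mathlib
import Pool.Agent.Lib_helper74.CUS.Pts

/-!
The points of the two relations, at every scale.
-/

namespace Pool.Agent.Lib_helper74.CUS

theorem points {e1 e2 e3 v ν w C τ : ℤ} (hC : C = e1 * e2 - e3) (hτC : C * τ = |C|)
    (hτ2 : τ * τ = 1) (hC0 : C ≠ 0) (hv : 1 ≤ v) (hν : 1 ≤ ν) (hw : v = ν * w)
    (hκ : (v * (e1 ^ 2 - e2) - ν) ^ 2 + 4 * v ^ 2 * e1 * e3 < C ^ 2 * v ^ 2 * w)
    (hns : ¬ IsSquare (v * ν)) :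
    ∃ P : ℤ, 1 ≤ P ∧ ∀ x : ℤ, 1 ≤ x → ∃ s1 s2 s3 s4 J n : ℤ,
      F e1 e2 e3 v s1 * F e1 e2 e3 v s2 = (v * ν) ^ 3 * (g e1 e2 e3 s3 * g e1 e2 e3 s4) ∧
      F e1 e2 e3 v s1 * F e1 e2 e3 v J = (v ^ 2 * C) ^ 3 * g e1 e2 e3 n ∧
      (x ≤ s2 ∧ s2 ≤ P * x) ∧ (x ≤ s3 ∧ s3 ≤ P * x) ∧ (x ≤ -s4 ∧ -s4 ≤ P * x) ∧
      (x ≤ J ∧ J ≤ P * x) ∧ (x ≤ -(τ * n) ∧ -(τ * n) ≤ P * x ^ 2) := by
  have hv0 : v ≠ 0 := by linarith
  obtain ⟨Q, hQ⟩ : ∃ Q : ℤ, Q = v * ν := ⟨_, rfl⟩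
  obtain ⟨m, hm⟩ : ∃ m : ℤ, m = C * w := ⟨_, rfl⟩
  obtain ⟨S, hS⟩ : ∃ S : ℤ, S = v * (e1 ^ 2 - e2) - ν := ⟨_, rfl⟩
  obtain ⟨U0, hU0⟩ : ∃ U : ℤ, U = ν + v * (e1 ^ 2 + e2) := ⟨_, rfl⟩
  obtain ⟨V0, hV0⟩ : ∃ V : ℤ, V = 2 * e1 + m := ⟨_, rfl⟩
  have hνm : ν * m = v * C := by rw [hm, hw]; ring
  have hQ1 : 1 ≤ Q := by rw [hQ]; exact omul hv hν
  rw [← hQ] at hns
  have hκe : U0 ^ 2 - Q * V0 ^ 2 = S ^ 2 + 4 * v ^ 2 * e1 * e3 - Q * m ^ 2 := by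
    rw [hU0, hQ, hV0, hS]
    linear_combination (-4 * v * e1) * hνm + (-4 * v ^ 2 * e1) * hC
  have hQm : Q * m ^ 2 = C ^ 2 * v ^ 2 * w := by
    rw [hQ, hm]; rw [hw]; ring
  have hκ1 : U0 ^ 2 + 1 ≤ Q * V0 ^ 2 := by
    rw [← hS] at hκ
    have : U0 ^ 2 - Q * V0 ^ 2 < 0 := by rw [hκe, hQm]; linarith
    linarith
  obtain ⟨W, hW⟩ : ∃ W : ℤ, W = v ^ 2 * |C| := ⟨_, rfl⟩
  have hCa : 1 ≤ |C| := Int.one_le_abs hC0
  have hW1 : 1 ≤ W := by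
    rw [hW]; exact omul (by rw [pow_two]; exact omul hv hv) hCa
  obtain ⟨E, hE⟩ : ∃ E : ℤ, E = |v * (e1 ^ 2 - e2)| := ⟨_, rfl⟩
  obtain ⟨R, hR⟩ : ∃ R : ℤ, R = v ^ 2 * |e1 * e3| := ⟨_, rfl⟩
  have hE0 : 0 ≤ E := by rw [hE]; exact abs_nonneg _
  have hR0 : 0 ≤ R := by rw [hR]; positivity
  have hSn := abs_nonneg S
  have hmn := abs_nonneg m
  obtain ⟨P, hP1, hpts⟩ := pts (Q := Q) (U0 := U0) (V0 := V0) (W := W)
    (N := 2 * (|S| + |m| + E + W + R + 2)) hQ1 hκ1 hns (by linarith) (by linarith)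
  obtain ⟨P2, hP2⟩ : ∃ P2 : ℤ, P2 = P + |S| + |m| + E + 1 := ⟨_, rfl⟩
  have hP21 : 1 ≤ P2 := by rw [hP2]; linarith
  have hP22 : P2 ≤ P2 ^ 2 + R := by
    have : P2 * 1 ≤ P2 * P2 := mul_le_mul_of_nonneg_left hP21 (by linarith)
    linarith
  refine ⟨P2 ^ 2 + R, by linarith, ?_⟩
  intro x hx
  obtain ⟨t, V, c, e, hUV, htc, hVe, tl, tu, Vl, Vu⟩ := hpts x hx
  have hx0 : 0 ≤ x := by linarith
  obtain ⟨k, hk⟩ : ∃ k : ℤ, k = τ * c := ⟨_, rfl⟩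
  have hWC : W = v ^ 2 * (C * τ) := by rw [hW, hτC]
  obtain ⟨s1, hs1⟩ : ∃ s : ℤ, s = v * e1 ^ 2 + v ^ 2 * C * k := ⟨_, rfl⟩
  obtain ⟨s2, hs2⟩ : ∃ s : ℤ, s = S - s1 := ⟨_, rfl⟩
  obtain ⟨s3, hs3⟩ : ∃ s : ℤ, s = e1 + m + W * e := ⟨_, rfl⟩
  obtain ⟨s4, hs4⟩ : ∃ s : ℤ, s = -e1 - W * e := ⟨_, rfl⟩
  have hs1' : 2 * s1 = S - t := by
    rw [hs1, hk, hS]
    linear_combination (-2 * c) * hWC - htc - hU0
  have hs2' : 2 * s2 = S + t := by rw [hs2]; linarith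
  have hs3' : 2 * s3 = m + V := by
    rw [hs3]
    linear_combination -hVe - hV0
  have hs4' : 2 * s4 = m - V := by rw [hs4]; rw [hs3] at hs3'; linarith
  have hrel : v * ν * (s3 * s4) = s1 * s2 + v ^ 2 * e1 * e3 := by
    have e4 : 4 * (v * ν * (s3 * s4)) = 4 * (s1 * s2 + v ^ 2 * e1 * e3) := by
      have i1 : 4 * (s3 * s4) = m ^ 2 - V ^ 2 := by
        calc 4 * (s3 * s4) = (2 * s3) * (2 * s4) := by ring
          _ = _ := by rw [hs3', hs4']; ring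
      have i2 : 4 * (s1 * s2) = S ^ 2 - t ^ 2 := by
        calc 4 * (s1 * s2) = (2 * s1) * (2 * s2) := by ring
          _ = _ := by rw [hs1', hs2']; ring
      rw [← hQ]
      linear_combination Q * i1 - i2 + hUV + hκe
    linarith
  have c1 := id_c (e1 := e1) (e2 := e2) (e3 := e3) (v := v) (ν := ν) (m := m) (s1 := s1) (s2 := s2)
    (s3 := s3) (s4 := s4) hv0 (by rw [hs2, ← hS]; ring) (by linarith) (by rw [← hC]; exact hνm) hrel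
  obtain ⟨J, hJ⟩ : ∃ J : ℤ, J = -(v * e2) - v ^ 2 * C * k := ⟨_, rfl⟩
  obtain ⟨n, hn⟩ : ∃ n : ℤ, n = -e1 - v * k * (e1 ^ 2 + e2) - v ^ 2 * C * k ^ 2 := ⟨_, rfl⟩
  have c2 := id_b e1 e2 e3 v k
  rw [← hC, ← hs1, ← hJ, ← hn] at c2
  have hJs : J = v * (e1 ^ 2 - e2) - s1 := by rw [hJ, hs1]; ring
  have hnn : v ^ 2 * C * n = s1 * J + v ^ 2 * e1 * e3 := by
    rw [hn, hs1, hJ, hC]; ring
  -- sizes
  have a1 := le_abs_self S
  have a2 := neg_abs_le S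
  have a3 := le_abs_self m
  have a4 := neg_abs_le m
  have a5 := le_abs_self (v * (e1 ^ 2 - e2))
  have a6 := neg_abs_le (v * (e1 ^ 2 - e2))
  rw [← hE] at a5 a6
  have up : ∀ z : ℤ, 0 ≤ z → z ≤ z * x := fun z hz => by
    have := mul_le_mul_of_nonneg_left hx hz
    linarith
  have Sx := up _ hSn
  have mx := up _ hmn
  have Ex := up _ hE0
  have Rx := up _ hR0
  have Px := up _ (show 0 ≤ P by linarith)
  have WRx : 0 ≤ W * x := mul_nonneg (by linarith) hx0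
  have hNx : 2 * (|S| + |m| + E + W + R + 2) * x =
      2 * (|S| * x + |m| * x + E * x + W * x + R * x + 2 * x) := by ring
  rw [hNx] at tl Vl
  have hP2x : P2 * x = P * x + |S| * x + |m| * x + E * x + x := by rw [hP2]; ring
  have hWR : (W + R + 1) * x = W * x + R * x + x := by ring
  have Rx0 : 0 ≤ R * x := mul_nonneg hR0 hx0
  have s2l : x ≤ s2 := by linarith
  have s2u : s2 ≤ P2 * x := by linarith
  have s1l : (W + R + 1) * x ≤ -s1 := by linarith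
  have s1u : -s1 ≤ P2 * x := by linarith
  have Jl : (W + R + 1) * x ≤ J := by linarith
  have Ju : J ≤ P2 * x := by linarith
  have wide : ∀ z : ℤ, z ≤ P2 * x → z ≤ (P2 ^ 2 + R) * x := fun z hz =>
    hz.trans (mul_le_mul_of_nonneg_right hP22 hx0)
  -- the size of `n`
  have a7 := le_abs_self (e1 * e3)
  have a8 := neg_abs_le (e1 * e3)
  have R1 : v ^ 2 * e1 * e3 ≤ R := by
    rw [hR]
    have := mul_le_mul_of_nonneg_left a7 (sq_nonneg v)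
    linarith
  have R2 : -R ≤ v ^ 2 * e1 * e3 := by
    rw [hR]
    have := mul_le_mul_of_nonneg_left a8 (sq_nonneg v)
    linarith
  have WR1 : 1 ≤ (W + R + 1) * x := omul (by linarith) hx
  have prodl : (W + R + 1) * x ≤ -(s1 * J) := by
    have i1 : ((W + R + 1) * x) * ((W + R + 1) * x) ≤ (-s1) * J :=
      mul_le_mul s1l Jl (by linarith) (by linarith)
    have i2 : ((W + R + 1) * x) * 1 ≤ ((W + R + 1) * x) * ((W + R + 1) * x) :=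
      mul_le_mul_of_nonneg_left WR1 (by linarith)
    linarith
  have produ : -(s1 * J) ≤ P2 ^ 2 * x ^ 2 := by
    have i1 : (-s1) * J ≤ (P2 * x) * (P2 * x) := mul_le_mul s1u Ju (by linarith) (by positivity)
    calc -(s1 * J) = (-s1) * J := by ring
      _ ≤ _ := i1
      _ = _ := by ring
  have eW : W * (-(τ * n)) = -(s1 * J) - v ^ 2 * e1 * e3 := by
    rw [hWC]
    linear_combination (-v ^ 2 * C * n) * hτ2 - hnn
  have nl0 : W * x ≤ W * (-(τ * n)) := by rw [eW]; linarith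
  have nl : x ≤ -(τ * n) := le_of_mul_le_mul_left nl0 (by linarith)
  have nu : -(τ * n) ≤ (P2 ^ 2 + R) * x ^ 2 := by
    have i0 : 1 ≤ x ^ 2 := by rw [pow_two]; exact omul hx hx
    have i1 : R * 1 ≤ R * x ^ 2 := mul_le_mul_of_nonneg_left i0 hR0
    have i2 : W * (-(τ * n)) ≤ (P2 ^ 2 + R) * x ^ 2 := by rw [eW]; linarith
    have i3 : 1 * (-(τ * n)) ≤ W * (-(τ * n)) := mul_le_mul_of_nonneg_right hW1 (by linarith)
    linarith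
  have c1' : F e1 e2 e3 v s1 * F e1 e2 e3 v s2 =
      (v * ν) ^ 3 * (g e1 e2 e3 s4 * g e1 e2 e3 s3) := by rw [c1]; ring
  rcases le_total 0 V with h0 | h0
  · rw [abs_of_nonneg h0] at Vl Vu
    exact ⟨s1, s2, s3, s4, J, n, c1, c2, ⟨s2l, wide _ s2u⟩,
      ⟨by linarith, wide _ (by linarith)⟩, ⟨by linarith, wide _ (by linarith)⟩,
      ⟨by linarith, wide _ Ju⟩, nl, nu⟩
  · rw [abs_of_nonpos h0] at Vl Vu
    exact ⟨s1, s2, s4, s3, J, n, c1', c2, ⟨s2l, wide _ s2u⟩,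
      ⟨by linarith, wide _ (by linarith)⟩, ⟨by linarith, wide _ (by linarith)⟩,
      ⟨by linarith, wide _ Ju⟩, nl, nu⟩

end Pool.Agent.Lib_helper74.CUS
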