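import Mathlib
import Pool.Agent.Lib_helper74.CUS.Points

/-!
If `h` is constant on the positive values of `g` and of `F` in a long interval then
`h (v ν)` is determined for every admissible divisor `ν` of `v`; a contradiction for two divisors.
-/

namespace Pool.Agent.Lib_helper74.CUS

open Pool.Agent.Lib_helper11.CUB (CM)

theorem hmul {h : ℕ → ℤ} (hh : CM h) {a b : ℤ} (ha : a ≠ 0) (hb : b ≠ 0) :
    h (a * b).natAbs = h a.natAbs * h b.natAbs := by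
  rw [Int.natAbs_mul]
  exact hh.mul _ _ (Int.natAbs_pos.2 ha) (Int.natAbs_pos.2 hb)

theorem hsq {h : ℕ → ℤ} (hh : CM h) {a : ℤ} (ha : a ≠ 0) : h a.natAbs * h a.natAbs = 1 :=
  hh.sq (Int.natAbs_pos.2 ha)

theorem hcube {h : ℕ → ℤ} (hh : CM h) {a : ℤ} (ha : a ≠ 0) : h (a ^ 3).natAbs = h a.natAbs := by
  rw [show a ^ 3 = a * a * a by ring, hmul hh (mul_ne_zero ha ha) ha, hmul hh ha ha, hsq hh ha,
    one_mul]

theorem hsquare {h : ℕ → ℤ} (hh : CM h) {a : ℤ} (ha : a ≠ 0) : h (a ^ 2).natAbs = 1 := by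
  rw [show a ^ 2 = a * a by ring, hmul hh ha ha, hsq hh ha]

/-- The values of `g` on the left. -/
theorem g_left {e1 e2 e3 v x Z ε φ : ℤ} (hg : ∀ n, g e1 e2 e3 n ≠ 0) (hv : 1 ≤ v) (hx : 1 ≤ x)
    {h : ℕ → ℤ} (hh : CM h) (h1 : ∀ n : ℤ, x ≤ n → n ≤ Z → h (g e1 e2 e3 n).natAbs = ε)
    (h2 : ∀ n : ℤ, x ≤ n → n ≤ Z → F e1 e2 e3 v n ≠ 0 → h (F e1 e2 e3 v n).natAbs = φ)
    {z : ℤ} (hz : x ≤ z) (hZ : v * z ^ 2 ≤ Z) :
    h (g e1 e2 e3 (-z)).natAbs = φ * ε * h v.natAbs := by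
  have hz1 : 1 ≤ z := hx.trans hz
  have hzz : z ≤ v * z ^ 2 := by
    have i1 : z * 1 ≤ z * z := mul_le_mul_of_nonneg_left hz1 (by linarith)
    have i2 : 1 * z ^ 2 ≤ v * z ^ 2 := mul_le_mul_of_nonneg_right hv (sq_nonneg z)
    linarith
  have k1 := h1 z hz (hzz.trans hZ)
  have e := id_a e1 e2 e3 v z
  have hv0 : v ≠ 0 := by linarith
  have n1 : v ^ 3 * (g e1 e2 e3 z * g e1 e2 e3 (-z)) ≠ 0 :=
    mul_ne_zero (pow_ne_zero _ hv0) (mul_ne_zero (hg _) (hg _))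
  have k2 := h2 (v * z ^ 2) (hz.trans hzz) hZ (by rw [e]; exact neg_ne_zero.2 n1)
  rw [e, Int.natAbs_neg, hmul hh (pow_ne_zero _ hv0) (mul_ne_zero (hg _) (hg _)), hcube hh hv0,
    hmul hh (hg _) (hg _), k1] at k2
  have s1 := hsq hh hv0
  have s2 : ε * ε = 1 := by rw [← k1]; exact hsq hh (hg _)
  rw [← k2]
  linear_combination (-(h (g e1 e2 e3 (-z)).natAbs) * ε * ε) * s1 - h (g e1 e2 e3 (-z)).natAbs * s2

theorem core {e1 e2 e3 v ν w : ℤ} (hg : ∀ n, g e1 e2 e3 n ≠ 0) (hv : 1 ≤ v) (hν : 1 ≤ ν)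
    (hw : v = ν * w)
    (hκ : (v * (e1 ^ 2 - e2) - ν) ^ 2 + 4 * v ^ 2 * e1 * e3 < (e1 * e2 - e3) ^ 2 * v ^ 2 * w)
    (hns : ¬ IsSquare (v * ν)) :
    ∃ K : ℤ, 1 ≤ K ∧ ∀ h : ℕ → ℤ, CM h → ∀ x Z : ℤ, 1 ≤ x → K * x ^ 4 ≤ Z → ∀ ε φ : ℤ,
      (∀ n : ℤ, x ≤ n → n ≤ Z → h (g e1 e2 e3 n).natAbs = ε) →
      (∀ n : ℤ, x ≤ n → n ≤ Z → F e1 e2 e3 v n ≠ 0 → h (F e1 e2 e3 v n).natAbs = φ) →
      h (v * ν).natAbs = h (e1 * e2 - e3).natAbs *
        (if 0 < e1 * e2 - e3 then ε else φ * ε * h v.natAbs) := by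
  obtain ⟨C, hC⟩ : ∃ C : ℤ, C = e1 * e2 - e3 := ⟨_, rfl⟩
  have hC0 : C ≠ 0 := by
    have := hg e1
    intro h0
    apply this
    unfold g
    rw [hC] at h0
    linear_combination h0
  rw [← hC] at hκ ⊢
  have hv0 : v ≠ 0 := by linarith
  obtain ⟨τ, hτC, hτ2, hτs⟩ : ∃ τ : ℤ, C * τ = |C| ∧ τ * τ = 1 ∧
      ((0 < C ∧ τ = 1) ∨ (¬ 0 < C ∧ τ = -1)) := by
    rcases lt_or_gt_of_ne hC0 with h0 | h0
    · exact ⟨-1, by rw [abs_of_neg h0]; ring, by norm_num, Or.inr ⟨by linarith, rfl⟩⟩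
    · exact ⟨1, by rw [abs_of_pos h0]; ring, by norm_num, Or.inl ⟨h0, rfl⟩⟩
  obtain ⟨P, hP1, hpts⟩ := points hC hτC hτ2 hC0 hv hν hw hκ hns
  obtain ⟨Q, hQ⟩ : ∃ Q : ℤ, Q = v * ν := ⟨_, rfl⟩
  have hQ0 : Q ≠ 0 := by rw [hQ]; exact mul_ne_zero hv0 (by linarith)
  have hP2 : 1 ≤ P ^ 2 := by rw [pow_two]; exact omul hP1 hP1
  refine ⟨v * P ^ 2, omul hv hP2, ?_⟩
  intro h hh x Z hx hZ ε φ h1 h2
  obtain ⟨s1, s2, s3, s4, J, n, c1, c2, ⟨b1, b2⟩, ⟨b3, b4⟩, ⟨b5, b6⟩, ⟨b7, b8⟩, b9, b10⟩ :=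
    hpts x hx
  have hx0 : 0 ≤ x := by linarith
  have hx2 : x ≤ x ^ 2 := by
    have := mul_le_mul_of_nonneg_left hx hx0
    calc x = x * 1 := by ring
      _ ≤ x * x := this
      _ = x ^ 2 := by ring
  have hx4 : x ^ 2 ≤ x ^ 4 := by
    have h5 : 1 ≤ x ^ 2 := by linarith
    calc x ^ 2 = x ^ 2 * 1 := by ring
      _ ≤ x ^ 2 * x ^ 2 := mul_le_mul_of_nonneg_left h5 (sq_nonneg x)
      _ = x ^ 4 := by ring
  have hPP : P ≤ P ^ 2 := by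
    calc P = P * 1 := by ring
      _ ≤ P * P := mul_le_mul_of_nonneg_left hP1 (by linarith)
      _ = P ^ 2 := by ring
  have hPv : P ^ 2 ≤ v * P ^ 2 := by
    have := mul_le_mul_of_nonneg_right hv (sq_nonneg P)
    linarith
  have sq4 : ∀ z : ℤ, 0 ≤ z → z ≤ P * x ^ 2 → v * z ^ 2 ≤ Z ∧ z ≤ Z := by
    intro z hz0 hz
    have i1 : z ^ 2 ≤ (P * x ^ 2) ^ 2 := pow_le_pow_left₀ hz0 hz 2
    constructor
    · refine le_trans ?_ hZ
      calc v * z ^ 2 ≤ v * (P * x ^ 2) ^ 2 := mul_le_mul_of_nonneg_left i1 (by linarith)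
        _ = _ := by ring
    · refine le_trans ?_ hZ
      calc z ≤ P * x ^ 2 := hz
        _ ≤ v * P ^ 2 * x ^ 4 := mul_le_mul (by linarith) hx4 (sq_nonneg x) (by positivity)
  have lin : ∀ z : ℤ, z ≤ P * x → z ≤ P * x ^ 2 := fun z hz =>
    hz.trans (mul_le_mul_of_nonneg_left hx2 (by linarith))
  have g3 : h (g e1 e2 e3 s3).natAbs = ε := h1 s3 b3 (sq4 s3 (by linarith) (lin _ b4)).2
  have g4 : h (g e1 e2 e3 s4).natAbs = φ * ε * h v.natAbs := by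
    have := g_left hg hv hx hh h1 h2 (z := -s4) b5 (sq4 (-s4) (by linarith) (lin _ b6)).1
    rwa [neg_neg] at this
  rw [← hQ] at c1
  have n1 : F e1 e2 e3 v s1 * F e1 e2 e3 v s2 ≠ 0 := by
    rw [c1]
    exact mul_ne_zero (pow_ne_zero _ hQ0) (mul_ne_zero (hg _) (hg _))
  have Fs1 : F e1 e2 e3 v s1 ≠ 0 := left_ne_zero_of_mul n1
  have Fs2 : F e1 e2 e3 v s2 ≠ 0 := right_ne_zero_of_mul n1
  have f2 : h (F e1 e2 e3 v s2).natAbs = φ := h2 s2 b1 (sq4 s2 (by linarith) (lin _ b2)).2 Fs2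
  have r1 : h (F e1 e2 e3 v s1).natAbs * φ = h Q.natAbs * (ε * (φ * ε * h v.natAbs)) := by
    have := congrArg (fun z : ℤ => h z.natAbs) c1
    rwa [hmul hh Fs1 Fs2, hmul hh (pow_ne_zero _ hQ0) (mul_ne_zero (hg _) (hg _)), hcube hh hQ0,
      hmul hh (hg _) (hg _), g3, g4, f2] at this
  have hvC : v ^ 2 * C ≠ 0 := mul_ne_zero (pow_ne_zero _ hv0) hC0
  have n2 : F e1 e2 e3 v s1 * F e1 e2 e3 v J ≠ 0 := by
    rw [c2]
    exact mul_ne_zero (pow_ne_zero _ hvC) (hg _)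
  have FJ : F e1 e2 e3 v J ≠ 0 := right_ne_zero_of_mul n2
  have fJ : h (F e1 e2 e3 v J).natAbs = φ := h2 J b7 (sq4 J (by linarith) (lin _ b8)).2 FJ
  have r2 : h (F e1 e2 e3 v s1).natAbs * φ = h C.natAbs * h (g e1 e2 e3 n).natAbs := by
    have := congrArg (fun z : ℤ => h z.natAbs) c2
    rwa [hmul hh Fs1 FJ, hmul hh (pow_ne_zero _ hvC) (hg _), hcube hh hvC,
      hmul hh (pow_ne_zero _ hv0) hC0, hsquare hh hv0, one_mul, fJ] at this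
  have r3 : h (g e1 e2 e3 n).natAbs = if 0 < C then φ * ε * h v.natAbs else ε := by
    have := sq4 (-(τ * n)) (by linarith) b10
    rcases hτs with ⟨hp, ht⟩ | ⟨hp, ht⟩
    · rw [if_pos hp]
      rw [ht, one_mul] at this b9
      have h6 := g_left hg hv hx hh h1 h2 (z := -n) b9 this.1
      rwa [neg_neg] at h6
    · rw [if_neg hp]
      rw [ht] at this b9
      exact h1 n (by linarith) (by linarith [this.2])
  rw [r3] at r2
  rw [r1] at r2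
  have q1 : ε * ε = 1 := by rw [← g3]; exact hsq hh (hg _)
  have q2 : φ * φ = 1 := by rw [← f2]; exact hsq hh Fs2
  have q3 := hsq hh hv0
  rw [← hQ]
  by_cases hCp : 0 < C
  · rw [if_pos hCp] at r2 ⊢
    have e1 : h Q.natAbs * (φ * h v.natAbs) = h C.natAbs * ε * (φ * h v.natAbs) := by
      linear_combination r2 - (h Q.natAbs * φ * h v.natAbs) * q1
    have e2 : (φ * h v.natAbs) * (φ * h v.natAbs) = 1 := by
      linear_combination (φ * φ) * q3 + q2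
    calc h Q.natAbs = h Q.natAbs * (φ * h v.natAbs) * (φ * h v.natAbs) := by
          rw [mul_assoc, e2, mul_one]
      _ = h C.natAbs * ε * (φ * h v.natAbs) * (φ * h v.natAbs) := by rw [e1]
      _ = _ := by rw [mul_assoc, e2, mul_one]
  · rw [if_neg hCp] at r2 ⊢
    have e1 : h Q.natAbs * (φ * h v.natAbs) = h C.natAbs * ε := by
      linear_combination r2 - (h Q.natAbs * φ * h v.natAbs) * q1
    have e2 : (φ * h v.natAbs) * (φ * h v.natAbs) = 1 := by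
      linear_combination (φ * φ) * q3 + q2
    calc h Q.natAbs = h Q.natAbs * (φ * h v.natAbs) * (φ * h v.natAbs) := by
          rw [mul_assoc, e2, mul_one]
      _ = h C.natAbs * ε * (φ * h v.natAbs) := by rw [e1]
      _ = _ := by ring

end Pool.Agent.Lib_helper74.CUS
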