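import Mathlib
import Pool.Agent.Lib_helper74.CUS.Core

/-!
For every monic integer cubic `g` without integer root and every large `v` divisible by `p p'`, one of
`g` and `F` (roots: `v` times the squares of the roots of `g`) takes both signs in every window
`[x, K x⁴]`.
-/

namespace Pool.Agent.Lib_helper74.CUS

open Pool.Agent.Lib_helper11.CUB (CM)

/-- The bound. -/
def w0 (e1 e2 e3 : ℤ) : ℤ := (|e1 ^ 2 - e2| + 1) ^ 2 + 4 * |e1 * e3| + 1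

theorem w0_pos (e1 e2 e3 : ℤ) : 1 ≤ w0 e1 e2 e3 := by
  unfold w0
  have := abs_nonneg (e1 * e3)
  have := sq_nonneg (|e1 ^ 2 - e2| + 1)
  linarith

theorem kappa_neg {e1 e2 e3 v ν w C : ℤ} (hC : C ≠ 0) (hv : 1 ≤ v) (hν : 1 ≤ ν) (hνv : ν ≤ v)
    (hw : w0 e1 e2 e3 ≤ w) :
    (v * (e1 ^ 2 - e2) - ν) ^ 2 + 4 * v ^ 2 * e1 * e3 < C ^ 2 * v ^ 2 * w := by
  have hv2 : 1 ≤ v ^ 2 := by rw [pow_two]; exact omul hv hv
  have hC2 : 1 ≤ C ^ 2 := by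
    have := sq_pos_of_ne_zero hC
    omega
  have a0 := abs_nonneg (e1 ^ 2 - e2)
  have i1 : (v * (e1 ^ 2 - e2) - ν) ^ 2 ≤ (v * (|e1 ^ 2 - e2| + 1)) ^ 2 := by
    apply sq_le_sq'
    · have h1 := mul_le_mul_of_nonneg_left (neg_abs_le (e1 ^ 2 - e2)) (show 0 ≤ v by linarith)
      linarith
    · have h1 := mul_le_mul_of_nonneg_left (le_abs_self (e1 ^ 2 - e2)) (show 0 ≤ v by linarith)
      linarith
  have i2 : v ^ 2 * (e1 * e3) ≤ v ^ 2 * |e1 * e3| :=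
    mul_le_mul_of_nonneg_left (le_abs_self _) (sq_nonneg v)
  have hw1 : 1 ≤ w := (w0_pos e1 e2 e3).trans hw
  have i3 : v ^ 2 * w0 e1 e2 e3 ≤ v ^ 2 * w := mul_le_mul_of_nonneg_left hw (sq_nonneg v)
  have i4 : 1 * (v ^ 2 * w) ≤ C ^ 2 * (v ^ 2 * w) :=
    mul_le_mul_of_nonneg_right hC2 (by positivity)
  unfold w0 at i3
  calc (v * (e1 ^ 2 - e2) - ν) ^ 2 + 4 * v ^ 2 * e1 * e3
      ≤ (v * (|e1 ^ 2 - e2| + 1)) ^ 2 + 4 * (v ^ 2 * |e1 * e3|) := by linarith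
    _ < v ^ 2 * ((|e1 ^ 2 - e2| + 1) ^ 2 + 4 * |e1 * e3| + 1) := by
        have : (v * (|e1 ^ 2 - e2| + 1)) ^ 2 = v ^ 2 * (|e1 ^ 2 - e2| + 1) ^ 2 := by ring
        rw [this]
        linarith
    _ ≤ v ^ 2 * w := i3
    _ ≤ C ^ 2 * v ^ 2 * w := by linarith

theorem sq_cancel {a b : ℕ} (ha : 1 ≤ a) (h : IsSquare (a ^ 2 * b)) : IsSquare b := by
  obtain ⟨r, hr⟩ := h
  have h1 : a ^ 2 ∣ r ^ 2 := ⟨b, by rw [pow_two r, ← hr]⟩
  have h2 : a ∣ r := (Nat.pow_dvd_pow_iff (by norm_num)).1 h1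
  obtain ⟨s, rfl⟩ := h2
  refine ⟨s, ?_⟩
  have h3 : a ^ 2 * b = a ^ 2 * (s * s) := by rw [hr]; ring
  exact Nat.eq_of_mul_eq_mul_left (by positivity) h3

theorem not_sq_prime {p : ℕ} (hp : p.Prime) : ¬ IsSquare p := hp.prime.irreducible.not_isSquare

theorem not_sq_prod {p q : ℕ} (hp : p.Prime) (hq : q.Prime) (hne : p ≠ q) : ¬ IsSquare (p * q) := by
  rintro ⟨r, hr⟩
  have h1 : p ∣ r := by
    have : p ∣ r * r := ⟨q, hr.symm⟩
    rcases (Nat.Prime.dvd_mul hp).1 this with h | h <;> exact h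
  obtain ⟨s, rfl⟩ := h1
  have h2 : q = s * (p * s) := by
    have : p * q = p * (s * (p * s)) := by rw [hr]; ring
    exact Nat.eq_of_mul_eq_mul_left hp.pos this
  have h3 : p ∣ q := ⟨s * s, by rw [h2]; ring⟩
  exact hne ((Nat.prime_dvd_prime_iff_eq hp hq).1 h3)

/-- A square times a nonsquare is a nonsquare. -/
theorem sq_mul_cancel {a b : ℕ} (ha : 1 ≤ a) (h1 : IsSquare a) (h2 : IsSquare (a * b)) :
    IsSquare b := by
  obtain ⟨r, rfl⟩ := h1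
  have hr : 1 ≤ r := by
    rcases Nat.eq_zero_or_pos r with h | h
    · rw [h] at ha; norm_num at ha
    · exact h
  exact sq_cancel hr (by rw [pow_two]; exact h2)

theorem choose_w {p q : ℕ} (hp : p.Prime) (hq : q.Prime) (hne : p ≠ q) {w : ℕ} (hw : 1 ≤ w) :
    ∃ w1 t : ℕ, w ≤ w1 ∧ 1 ≤ t ∧ w1 * p * t = p * q * w ∧ ¬ IsSquare w1 ∧ ¬ IsSquare (w1 * p) := by
  by_cases h1 : IsSquare w
  · refine ⟨w * q, 1, Nat.le_mul_of_pos_right _ hq.pos, le_rfl, by ring, ?_, ?_⟩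
    · intro h2; exact not_sq_prime hq (sq_mul_cancel hw h1 h2)
    · intro h2
      rw [mul_assoc] at h2
      exact not_sq_prod hq hp hne.symm (sq_mul_cancel hw h1 h2)
  · by_cases h3 : IsSquare (w * p)
    · refine ⟨w * q, 1, Nat.le_mul_of_pos_right _ hq.pos, le_rfl, by ring, ?_, ?_⟩
      · intro h2
        have h4 : IsSquare (w ^ 2 * (p * q)) := by
          have := h3.mul h2
          have e : w * p * (w * q) = w ^ 2 * (p * q) := by ring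
          rwa [e] at this
        exact not_sq_prod hp hq hne (sq_cancel hw h4)
      · intro h2
        rw [show w * q * p = w * p * q by ring] at h2
        exact not_sq_prime hq (sq_mul_cancel (Nat.mul_pos hw hp.pos) h3 h2)
    · exact ⟨w, q, le_rfl, hq.pos, by ring, h1, h3⟩

theorem both_or {h : ℕ → ℤ} (f : ℤ → ℤ) {x Z : ℕ}
    (hne : ¬ ∀ s : ℤ, (s = 1 ∨ s = -1) → ∃ n : ℕ, x ≤ n ∧ n ≤ Z ∧ h (f n).natAbs = s) (hh : CM h) :
    ∃ ε : ℤ, ∀ n : ℤ, (x : ℤ) ≤ n → n ≤ (Z : ℤ) → f n ≠ 0 → h (f n).natAbs = ε := by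
  push Not at hne
  obtain ⟨s, hs, hn⟩ := hne
  refine ⟨-s, fun n h1 h2 h3 => ?_⟩
  lift n to ℕ using (by linarith [Int.natCast_nonneg x])
  have h4 := hn n (by exact_mod_cast h1) (by exact_mod_cast h2)
  rcases hh.values _ (Int.natAbs_pos.2 h3) with h5 | h5 <;> rcases hs with h6 | h6
  · exact absurd (h5.trans h6.symm) h4
  · rw [h5, h6]; norm_num
  · rw [h5, h6]
  · exact absurd (h5.trans h6.symm) h4

/-- The theorem on pairs without dilation of the first polynomial. -/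
theorem pair_undilated {e1 e2 e3 : ℤ} (hg : ∀ n, g e1 e2 e3 n ≠ 0) {p q : ℕ} (hp : p.Prime)
    (hq : q.Prime) (hne : p ≠ q) {v : ℕ} (hdiv : p * q ∣ v)
    (hv : p * q * w0 e1 e2 e3 ≤ (v : ℤ)) :
    ∃ K : ℕ, ∀ h : ℕ → ℤ, CM h → h p = -1 → ∀ x : ℕ, 1 ≤ x →
      (∀ s : ℤ, (s = 1 ∨ s = -1) → ∃ n : ℕ, x ≤ n ∧ n ≤ K * x ^ 4 ∧
        h (g e1 e2 e3 n).natAbs = s) ∨
      (∀ s : ℤ, (s = 1 ∨ s = -1) → ∃ n : ℕ, x ≤ n ∧ n ≤ K * x ^ 4 ∧
        h (F e1 e2 e3 v n).natAbs = s) := by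
  obtain ⟨w, hw⟩ := hdiv
  have hpq : 0 < p * q := Nat.mul_pos hp.pos hq.pos
  have hw0 : w0 e1 e2 e3 ≤ (w : ℤ) := by
    rw [hw] at hv; push_cast at hv
    have : (0 : ℤ) < (p : ℤ) * q := by exact_mod_cast hpq
    exact le_of_mul_le_mul_left hv this
  have hw1 : 1 ≤ w := by
    have := (w0_pos e1 e2 e3).trans hw0
    exact_mod_cast this
  obtain ⟨w1, t, k1, k2, k3, k4, k5⟩ := choose_w hp hq hne hw1
  have hv1 : v = w1 * p * t := by rw [hw, k3]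
  have hw11 : 1 ≤ w1 := hw1.trans k1
  have hvpos : 1 ≤ v := by
    rw [hv1]; exact Nat.mul_pos (Nat.mul_pos hw11 hp.pos) k2
  have hvZ : (1 : ℤ) ≤ v := by exact_mod_cast hvpos
  have hC0 : e1 * e2 - e3 ≠ 0 := by
    have := hg e1
    intro h0
    apply this
    unfold g
    linear_combination h0
  have hw1Z : w0 e1 e2 e3 ≤ (w1 : ℤ) := hw0.trans (by exact_mod_cast k1)
  have hpt : 1 ≤ p * t := Nat.mul_pos hp.pos k2
  have A1 : p * t ≤ v := by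
    rw [hv1, mul_assoc]; exact Nat.le_mul_of_pos_left _ hw11
  have A2 : t ≤ v := by
    rw [hv1]; exact Nat.le_mul_of_pos_left _ (Nat.mul_pos hw11 hp.pos)
  have sqZ : ∀ a b : ℕ, 1 ≤ a → ¬ IsSquare b → ¬ IsSquare ((a ^ 2 * b : ℕ) : ℤ) := by
    intro a b ha hb hs
    rw [Int.isSquare_natCast_iff] at hs
    exact hb (sq_cancel ha hs)
  obtain ⟨K1, hK1, c1⟩ := core (v := (v : ℤ)) (ν := ((p * t : ℕ) : ℤ)) (w := (w1 : ℤ)) hg hvZ
    (by exact_mod_cast hpt) (by rw [hv1]; push_cast; ring)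
    (kappa_neg hC0 hvZ (by exact_mod_cast hpt) (by exact_mod_cast A1) hw1Z)
    (by
      have := sqZ (p * t) w1 hpt k4
      have e : ((v : ℤ) * ((p * t : ℕ) : ℤ)) = (((p * t) ^ 2 * w1 : ℕ) : ℤ) := by
        rw [hv1]; push_cast; ring
      rwa [e])
  obtain ⟨K2, hK2, c2⟩ := core (v := (v : ℤ)) (ν := (t : ℤ)) (w := ((w1 * p : ℕ) : ℤ)) hg hvZ
    (by exact_mod_cast k2) (by rw [hv1]; push_cast; ring)
    (kappa_neg hC0 hvZ (by exact_mod_cast k2) (by exact_mod_cast A2) (hw1Z.trans (by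
      exact_mod_cast Nat.le_mul_of_pos_right _ hp.pos)))
    (by
      have := sqZ t (w1 * p) k2 k5
      have e : ((v : ℤ) * (t : ℤ)) = ((t ^ 2 * (w1 * p) : ℕ) : ℤ) := by
        rw [hv1]; push_cast; ring
      rwa [e])
  obtain ⟨K, hK⟩ : ∃ K : ℕ, K1 ≤ (K : ℤ) ∧ K2 ≤ (K : ℤ) := by
    refine ⟨(max K1 K2).toNat, ?_, ?_⟩
    · exact (le_max_left _ _).trans (Int.self_le_toNat _)
    · exact (le_max_right _ _).trans (Int.self_le_toNat _)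
  refine ⟨K, fun h hh hhp x hx => ?_⟩
  by_contra hcon
  rw [not_or] at hcon
  obtain ⟨ε, hε⟩ := both_or (g e1 e2 e3) hcon.1 hh
  obtain ⟨φ, hφ⟩ := both_or (F e1 e2 e3 v) hcon.2 hh
  have hx1 : (1 : ℤ) ≤ x := by exact_mod_cast hx
  have hx4 : (0 : ℤ) ≤ (x : ℤ) ^ 4 := by positivity
  have d1 := c1 h hh x ((K * x ^ 4 : ℕ) : ℤ) hx1
    (by push_cast; exact mul_le_mul_of_nonneg_right hK.1 hx4) ε φ
    (fun n h1 h2 => hε n h1 h2 (hg n)) hφ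
  have d2 := c2 h hh x ((K * x ^ 4 : ℕ) : ℤ) hx1
    (by push_cast; exact mul_le_mul_of_nonneg_right hK.2 hx4) ε φ
    (fun n h1 h2 => hε n h1 h2 (hg n)) hφ
  rw [← d2] at d1
  have v0 : (v : ℤ) ≠ 0 := by linarith
  have p0 : (p : ℤ) ≠ 0 := by exact_mod_cast hp.ne_zero
  have t0 : (t : ℤ) ≠ 0 := by
    have : (1 : ℤ) ≤ t := by exact_mod_cast k2
    linarith
  have e : ((v : ℤ) * ((p * t : ℕ) : ℤ)) = (v * t) * p := by push_cast; ring
  rw [e, hmul hh (mul_ne_zero v0 t0) p0, Int.natAbs_natCast, hhp] at d1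
  have s1 := hsq hh (mul_ne_zero v0 t0)
  have : h ((v : ℤ) * t).natAbs = 0 := by linarith
  rw [this] at s1
  norm_num at s1

end Pool.Agent.Lib_helper74.CUS
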